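import Pool.Agent.Lib.BE.E.LnC

/-!
MP_fb5b0b_nt, directory WD (helper92): short windows at dilates. Module Dil: a set of positive lower density
meets bounded windows at the dilates P_1 y, ..., P_k y for a positive proportion of y (from the density
Hales-Jewett theorem).
-/

set_option autoImplicit false

namespace Pool.Agent.Lib.MP_fb5b0b_nt.WD

open Finset
open Pool.Agent.Lib.MP_9f2731_nt.GP Pool.Agent.Lib.BE

open Classical in
/-- the elements of a dense set occur at bounded distance from the dilates of a positive proportion of y -/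
def DilStmt : Prop := ∀ (k : ℕ) (δ : ℝ), 1 ≤ k → 0 < δ → ∃ r : ℕ, ∀ f : Fin r → Fin k → ℕ,
  (∀ t j, 1 ≤ f t j) → ∃ (c : ℝ) (S X0 : ℕ), 0 < c ∧ 1 ≤ S ∧ ∀ (X : ℕ) (G : ℕ → Prop), X0 ≤ X →
    (∀ Y : ℕ, X ≤ Y ^ 2 → Y ≤ X → δ * Y ≤ (((Icc 1 Y).filter G).card : ℝ)) →
    c * X ≤ (((Icc 1 X).filter (fun y => ∃ T : Finset (Fin r), T.Nonempty ∧
      ∀ j : Fin k, ∃ g : ℕ, G g ∧ (∏ t ∈ T, f t j) * y ≤ g ∧ g < (∏ t ∈ T, f t j) * y + S)).card : ℝ)

/-- the words which are good for n -/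
private def Dil_Gd {k r : ℕ} (f : Fin r → Fin k → ℕ) (G : ℕ → Prop) (n : ℕ) (w : Fin r → Fin k) : Prop :=
  ∃ g : ℕ, G g ∧ (∏ t, f t (w t)) * n ≤ g ∧ g < (∏ t, f t (w t)) * n + ∏ t, f t (w t)

private theorem Dil_fiber (s q : ℕ) (hs : 1 ≤ s) (A : Finset ℕ) :
    (A.filter (fun g => g / s = q)).card ≤ s := by
  have h : A.filter (fun g => g / s = q) ⊆ Ico (s * q) (s * q + s) := by
    intro g hg
    rw [mem_filter] at hg
    rw [mem_Ico]
    have h1 := Nat.div_add_mod g s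
    have h2 := Nat.mod_lt g (show 0 < s from hs)
    rw [hg.2] at h1
    omega
  have h3 := card_le_card h
  rw [Nat.card_Ico] at h3
  omega

open Classical in
/-- sampling at the multiples of s -/
private theorem Dil_sample (δ : ℝ) (s Z : ℕ) (G : ℕ → Prop) (hs : 1 ≤ s)
    (hG : δ * ((s * Z : ℕ) : ℝ) ≤ (((Icc 1 (s * Z)).filter G).card : ℝ)) :
    δ * Z - 1 ≤ (((Icc 1 Z).filter (fun n => ∃ g : ℕ, G g ∧ s * n ≤ g ∧ g < s * n + s)).card : ℝ) := by
  set B := (Icc 1 Z).filter (fun n => ∃ g : ℕ, G g ∧ s * n ≤ g ∧ g < s * n + s) with hB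
  set A := (Icc 1 (s * Z)).filter G with hA
  have himg : A.image (fun g => g / s) ⊆ insert 0 B := by
    intro n hn
    rw [mem_image] at hn
    obtain ⟨g, hg, rfl⟩ := hn
    rw [hA, mem_filter, mem_Icc] at hg
    rw [mem_insert]
    rcases Nat.eq_zero_or_pos (g / s) with h0 | h0
    · exact Or.inl h0
    · right
      rw [hB, mem_filter, mem_Icc]
      refine ⟨⟨h0, ?_⟩, g, hg.2, Nat.mul_div_le g s, ?_⟩
      · exact Nat.div_le_of_le_mul hg.1.2
      · have h1 := Nat.div_add_mod g s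
        have h2 := Nat.mod_lt g (show 0 < s from hs)
        omega
  have h1 : A.card ≤ s * (A.image (fun g => g / s)).card :=
    card_le_mul_card_image A s (fun q _ => Dil_fiber s q hs A)
  have h2 : (A.image (fun g => g / s)).card ≤ B.card + 1 :=
    le_trans (card_le_card himg) (card_insert_le _ _)
  have h3 : (A.card : ℝ) ≤ s * ((B.card : ℝ) + 1) := by
    have h4 : A.card ≤ s * (B.card + 1) := le_trans h1 (Nat.mul_le_mul_left _ h2)
    exact_mod_cast h4
  have hs0 : (0 : ℝ) < s := by exact_mod_cast hs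
  have h5 : (s : ℝ) * (δ * Z) ≤ s * ((B.card : ℝ) + 1) := by
    refine le_trans (le_of_eq ?_) (le_trans hG h3)
    push_cast
    ring
  have h6 := le_of_mul_le_mul_left h5 hs0
  linarith

open Classical in
/-- many n have many good words -/
private theorem Dil_average {W : Type} [Fintype W] (κ : ℝ) (hκ : 0 ≤ κ) (Z : ℕ) (P : ℕ → W → Prop)
    (h : ∀ w, 2 * κ * Z ≤ (((Icc 1 Z).filter (fun n => P n w)).card : ℝ)) :
    κ * Z * Fintype.card W ≤
      (((Icc 1 Z).filter (fun n =>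
        κ * Fintype.card W ≤ ((univ.filter (fun w => P n w)).card : ℝ))).card : ℝ) * Fintype.card W := by
  set B := (Icc 1 Z).filter (fun n => κ * Fintype.card W ≤ ((univ.filter (fun w => P n w)).card : ℝ)) with hB
  have h1 : ∑ n ∈ Icc 1 Z, ((univ.filter (fun w => P n w)).card : ℝ) =
      ∑ w : W, (((Icc 1 Z).filter (fun n => P n w)).card : ℝ) := by
    have e1 : ∀ n ∈ Icc 1 Z, ((univ.filter (fun w => P n w)).card : ℝ) =
        ∑ w : W, if P n w then (1 : ℝ) else 0 := by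
      intro n _
      rw [card_filter]
      push_cast
      rfl
    have e2 : ∀ w ∈ (univ : Finset W), (((Icc 1 Z).filter (fun n => P n w)).card : ℝ) =
        ∑ n ∈ Icc 1 Z, if P n w then (1 : ℝ) else 0 := by
      intro w _
      rw [card_filter]
      push_cast
      rfl
    rw [sum_congr rfl e1, sum_congr rfl e2]
    exact sum_comm
  have h2 : (Fintype.card W : ℝ) * (2 * κ * Z) ≤ ∑ w : W, (((Icc 1 Z).filter (fun n => P n w)).card : ℝ) := by
    have := card_nsmul_le_sum (univ : Finset W) (fun w => (((Icc 1 Z).filter (fun n => P n w)).card : ℝ))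
      (2 * κ * Z) (fun w _ => h w)
    rw [nsmul_eq_mul, card_univ] at this
    exact this
  have h3 : ∑ n ∈ Icc 1 Z, ((univ.filter (fun w => P n w)).card : ℝ) ≤
      (B.card : ℝ) * Fintype.card W + Z * (κ * Fintype.card W) := by
    have h4 : ∀ n ∈ Icc 1 Z, ((univ.filter (fun w => P n w)).card : ℝ) ≤
        (if n ∈ B then (Fintype.card W : ℝ) else 0) + κ * Fintype.card W := by
      intro n hn
      have h0 : 0 ≤ κ * (Fintype.card W : ℝ) := mul_nonneg hκ (Nat.cast_nonneg _)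
      split_ifs with hb
      · have h5 : ((univ.filter (fun w => P n w)).card : ℝ) ≤ Fintype.card W := by
          exact_mod_cast card_le_univ _
        linarith
      · rw [hB, mem_filter, not_and, not_le] at hb
        have := hb hn
        linarith
    refine le_trans (sum_le_sum h4) (le_of_eq ?_)
    rw [sum_add_distrib, ← sum_filter, sum_const, sum_const, nsmul_eq_mul, nsmul_eq_mul, Nat.card_Icc]
    have e : (Icc 1 Z).filter (fun n => n ∈ B) = B := by
      ext n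
      rw [mem_filter]
      exact ⟨fun h => h.2, fun h => ⟨(mem_filter.1 (hB ▸ h)).1, h⟩⟩
    rw [e, Nat.add_sub_cancel]
  rw [h1] at h3
  nlinarith [h2, h3]

private theorem Dil_div (X S : ℕ) (hS : 1 ≤ S) (h : 2 * S ≤ X) : (X : ℝ) / (2 * S) ≤ ((X / S : ℕ) : ℝ) := by
  have h1 := Nat.div_add_mod X S
  have h2 := Nat.mod_lt X (show 0 < S from hS)
  have h3 : X ≤ 2 * S * (X / S) := by
    have h4 : 1 ≤ X / S := (Nat.one_le_div_iff hS).2 (by omega)
    nlinarith
  have hS0 : (0 : ℝ) < 2 * S := by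
    have : (0 : ℝ) < S := by exact_mod_cast hS
    linarith
  rw [div_le_iff₀ hS0]
  have h5 : (X : ℝ) ≤ 2 * S * ((X / S : ℕ) : ℝ) := by exact_mod_cast h3
  linarith

theorem tDil (h0 : DhjStmt) : DilStmt := by
  classical
  intro k δ hk hδ
  obtain ⟨r, hr⟩ := h0 k (δ / 4) (by linarith)
  refine ⟨r, fun f hf => ?_⟩
  set S : ℕ := ∏ t, ∑ j, f t j with hSdef
  have hsum : ∀ t j, f t j ≤ ∑ j, f t j := fun t j =>
    Finset.single_le_sum (f := f t) (fun _ _ => Nat.zero_le _) (mem_univ j)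
  have hS1 : 1 ≤ S := by
    refine Nat.one_le_iff_ne_zero.2 (prod_ne_zero_iff.2 fun t _ => ?_)
    have := hsum t ⟨0, hk⟩
    have := hf t ⟨0, hk⟩
    omega
  have hsS : ∀ w : Fin r → Fin k, ∏ t, f t (w t) ≤ S := fun w =>
    Finset.prod_le_prod' fun t _ => hsum t (w t)
  have hs1 : ∀ w : Fin r → Fin k, 1 ≤ ∏ t, f t (w t) := fun w =>
    Nat.one_le_iff_ne_zero.2 (prod_ne_zero_iff.2 fun t _ => Nat.one_le_iff_ne_zero.1 (hf t _))
  have hSr : (1 : ℝ) ≤ S := by exact_mod_cast hS1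
  refine ⟨δ / (8 * S ^ 2), S, 4 * S ^ 2 + ⌈4 * S / δ⌉₊, by positivity, hS1, ?_⟩
  intro X G hX hG
  set Z : ℕ := X / S with hZ
  have hX4 : 4 * S ^ 2 ≤ X := by omega
  have hXδ : 4 * S / δ ≤ (X : ℝ) := by
    refine le_trans (Nat.le_ceil _) ?_
    exact_mod_cast (show ⌈4 * S / δ⌉₊ ≤ X by omega)
  have hX2 : 2 * S ≤ X := by nlinarith
  have hZX : (X : ℝ) / (2 * S) ≤ (Z : ℝ) := Dil_div X S hS1 hX2
  have hZS : S * Z ≤ X := Nat.mul_div_le X S
  have hZsq : X ≤ Z ^ 2 := by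
    have h1 : (X : ℝ) / (2 * S) * (X / (2 * S)) ≤ (Z : ℝ) * Z :=
      mul_le_mul hZX hZX (by positivity) (by positivity)
    have h2 : (X : ℝ) ≤ X / (2 * S) * (X / (2 * S)) := by
      have h3 : (4 : ℝ) * S ^ 2 ≤ X := by exact_mod_cast hX4
      have h4 : (X : ℝ) / (2 * S) * (X / (2 * S)) = X * (X / (4 * S ^ 2)) := by
        field_simp
        ring
      rw [h4]
      have h5 : (1 : ℝ) ≤ X / (4 * S ^ 2) := by
        rw [le_div_iff₀ (by positivity)]
        linarith
      nlinarith [Nat.cast_nonneg (α := ℝ) X]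
    have h6 : (X : ℝ) ≤ (Z : ℝ) ^ 2 := by nlinarith
    exact_mod_cast h6
  have hZ1 : 1 ≤ Z := by
    by_contra hc
    have hz : Z = 0 := Nat.lt_one_iff.1 (not_le.1 hc)
    rw [hz] at hZsq
    norm_num at hZsq
    omega
  have hδZ : 2 ≤ δ * Z := by
    have h1 : 4 * S / δ / (2 * S) ≤ (Z : ℝ) := le_trans (by gcongr) hZX
    have h2 : 4 * (S : ℝ) / δ / (2 * S) = 2 / δ := by
      field_simp
      ring
    rw [h2, div_le_iff₀ hδ] at h1
    linarith
  -- every word is good for many n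
  have hw : ∀ w : Fin r → Fin k, 2 * (δ / 4) * Z ≤
      (((Icc 1 Z).filter (fun n => Dil_Gd f G n w)).card : ℝ) := by
    intro w
    have h1 := Dil_sample δ (∏ t, f t (w t)) Z G (hs1 w) (hG _ ?_ ?_)
    · have h2 : 2 * (δ / 4) * Z ≤ δ * Z - 1 := by linarith
      exact le_trans h2 h1
    · refine le_trans hZsq (Nat.pow_le_pow_left ?_ 2)
      exact Nat.le_mul_of_pos_left Z (hs1 w)
    · exact le_trans (Nat.mul_le_mul_right Z (hsS w)) hZS
  have havg := Dil_average (W := Fin r → Fin k) (δ / 4) (by linarith) Z (Dil_Gd f G) hw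
  set B := (Icc 1 Z).filter (fun n => δ / 4 * Fintype.card (Fin r → Fin k) ≤
    ((univ.filter (fun w => Dil_Gd f G n w)).card : ℝ)) with hB
  have hcardW : (Fintype.card (Fin r → Fin k) : ℝ) = (k : ℝ) ^ r := by
    rw [Fintype.card_fun, Fintype.card_fin, Fintype.card_fin]
    push_cast
    rfl
  have hBc : δ / 4 * Z ≤ (B.card : ℝ) := by
    have hk0 : (0 : ℝ) < Fintype.card (Fin r → Fin k) := by
      rw [hcardW]
      have : (0 : ℝ) < k := by exact_mod_cast hk
      positivity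
    exact le_of_mul_le_mul_right havg hk0
  -- the lines
  have hline : ∀ n ∈ B, ∃ F : ℕ, 1 ≤ F ∧ F ≤ S ∧ ∃ T : Finset (Fin r), T.Nonempty ∧ ∀ j : Fin k, ∃ g : ℕ,
      G g ∧ (∏ t ∈ T, f t j) * (F * n) ≤ g ∧ g < (∏ t ∈ T, f t j) * (F * n) + S := by
    intro n hn
    rw [hB, mem_filter, hcardW] at hn
    obtain ⟨w, hw1, hw2⟩ := hr _ hn.2
    obtain ⟨T, F, hT, hF, hprod, -⟩ := tLnC k r f w hk hf hw1
    refine ⟨F, hF, ?_, T, hT, ?_⟩
    · have h1 := hprod ⟨0, hk⟩
      have h2 : 1 ≤ ∏ t ∈ T, f t (⟨0, hk⟩ : Fin k) :=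
        Nat.one_le_iff_ne_zero.2 (prod_ne_zero_iff.2 fun t _ => Nat.one_le_iff_ne_zero.1 (hf t _))
      calc F = F * 1 := (mul_one F).symm
        _ ≤ F * ∏ t ∈ T, f t (⟨0, hk⟩ : Fin k) := Nat.mul_le_mul_left _ h2
        _ = ∏ t, f t (lineMap w ⟨0, hk⟩ t) := h1.symm
        _ ≤ S := hsS _
    · intro j
      have h3 := hw2 j
      rw [mem_filter] at h3
      obtain ⟨g, hg, hg1, hg2⟩ := h3.2
      have e : (∏ t, f t (lineMap w j t)) * n = (∏ t ∈ T, f t j) * (F * n) := by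
        rw [hprod j]
        ring
      rw [e] at hg1 hg2
      exact ⟨g, hg, hg1, lt_of_lt_of_le hg2 (Nat.add_le_add_left (hsS _) _)⟩
  choose! F hF1 hFS hFT using hline
  set R := (Icc 1 X).filter (fun y => ∃ T : Finset (Fin r), T.Nonempty ∧
      ∀ j : Fin k, ∃ g : ℕ, G g ∧ (∏ t ∈ T, f t j) * y ≤ g ∧ g < (∏ t ∈ T, f t j) * y + S) with hR
  have himg : B.image (fun n => F n * n) ⊆ R := by
    intro y hy
    rw [mem_image] at hy
    obtain ⟨n, hn, rfl⟩ := hy
    have hnZ := mem_Icc.1 (mem_filter.1 (hB ▸ hn)).1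
    rw [hR, mem_filter, mem_Icc]
    refine ⟨⟨Nat.mul_pos (hF1 n hn) hnZ.1, ?_⟩, hFT n hn⟩
    exact le_trans (Nat.mul_le_mul (hFS n hn) hnZ.2) hZS
  have hfib : ∀ y ∈ B.image (fun n => F n * n), (B.filter (fun n => F n * n = y)).card ≤ S := by
    intro y _
    have h1 : (B.filter (fun n => F n * n = y)).card ≤ (Icc 1 S).card := by
      refine card_le_card_of_injOn F ?_ ?_
      · intro n hn
        have hn' := mem_filter.1 (mem_coe.1 hn)
        exact mem_coe.2 (mem_Icc.2 ⟨hF1 n hn'.1, hFS n hn'.1⟩)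
      · intro n hn n' hn' he
        have h2 := mem_filter.1 (mem_coe.1 hn)
        have h3 := mem_filter.1 (mem_coe.1 hn')
        have h4 : F n * n = F n * n' := by
          have h5 := h3.2
          rw [← he] at h5
          rw [h2.2, h5]
        exact Nat.eq_of_mul_eq_mul_left (hF1 n h2.1) h4
    rwa [Nat.card_Icc, Nat.add_sub_cancel] at h1
  have hcard : B.card ≤ S * R.card :=
    le_trans (card_le_mul_card_image B S hfib) (Nat.mul_le_mul_left _ (card_le_card himg))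
  have hcard' : (B.card : ℝ) ≤ S * R.card := by exact_mod_cast hcard
  have h1 : δ / 4 * (X / (2 * S)) ≤ S * (R.card : ℝ) :=
    le_trans (mul_le_mul_of_nonneg_left hZX (by linarith)) (le_trans hBc hcard')
  have h2 : δ / (8 * (S : ℝ) ^ 2) * X = δ / 4 * (X / (2 * S)) / S := by
    field_simp
    ring
  rw [h2, div_le_iff₀ (by linarith)]
  linarith

end Pool.Agent.Lib.MP_fb5b0b_nt.WD
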