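import Pool.Agent.Lib.RU.Spec
import Pool.Agent.Lib.MP_fb5b0b_nt.WD.Dil

/-!
MP_fb5b0b_nt, directory WD (helper92): short windows at dilates. Module App: the theorem, from the dense set
of the beginnings of short windows which contain a run of prime gaps (project RU) and module Dil.
-/

set_option autoImplicit false

namespace Pool.Agent.Lib.MP_fb5b0b_nt.WD

open Finset
open Pool.Agent.Lib.MP_9f2731_nt.GP Pool.Agent.Lib.RU

/-- the interval (a, a + L] contains m + 2 consecutive primes, every gap between them being more than C times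
the preceding one -/
def Win (m : ℕ) (C : ℝ) (a : ℕ) (L : ℝ) : Prop :=
  ∃ n : ℕ, a < Nat.nth Nat.Prime n ∧ (Nat.nth Nat.Prime (n + m + 1) : ℝ) ≤ a + L ∧
    ∀ i < m, C * (gp (n + i) : ℝ) < gp (n + i + 1)

open Classical in
/-- THEOREM WD -/
def WdStmt : Prop := ∀ (k m : ℕ) (C ε : ℝ), 1 ≤ k → 0 < ε → ∃ r : ℕ, ∀ f : Fin r → Fin k → ℕ,
  (∀ t j, 1 ≤ f t j) → ∃ c : ℝ, 0 < c ∧ ∃ X0 : ℕ, ∀ X : ℕ, X0 ≤ X → ∃ T : Finset (Fin r), T.Nonempty ∧
    c * X ≤ (((Icc 1 X).filter (fun y => ∀ j : Fin k,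
      Win m C ((∏ t ∈ T, f t j) * y) (ε * Real.log y))).card : ℝ)

/-- the primes after N and the sum of the gaps -/
private theorem App_sum (n s : ℕ) :
    Nat.nth Nat.Prime (n + s) = Nat.nth Nat.Prime n + ∑ i ∈ range s, gp (n + i) := by
  induction s with
  | zero => simp
  | succ s ih =>
    rw [sum_range_succ]
    have h : Nat.nth Nat.Prime (n + s) ≤ Nat.nth Nat.Prime (n + s + 1) :=
      (Nat.nth_monotone Nat.infinite_setOfPred_prime) (Nat.le_succ _)
    unfold gp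
    unfold gp at ih
    rw [show n + (s + 1) = n + s + 1 from rfl]
    omega

open Classical in
/-- the dense set: beginnings of short windows with a run -/
private theorem App_dense (h1 : CoUStmt) (h2 : WiUStmt) (h3 : GeUStmt) (m : ℕ) (C ε : ℝ) (hε : 0 < ε) :
    ∃ (δ : ℝ) (Y1 : ℕ), 0 < δ ∧ ∀ X Y : ℕ, Y1 ≤ Y → Y ≤ X →
      δ * Y ≤ (((Icc 1 Y).filter (fun g => Win m C g (ε * Real.log X))).card : ℝ) := by
  obtain ⟨K, hK, hco⟩ := h1 (m + 1)
  obtain ⟨δ, M0, hδ, hfam⟩ := h3 K C hK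
  obtain ⟨η0, hη0, hco⟩ := hco δ hδ
  have hη : 0 < min η0 (ε / 2) := lt_min hη0 (by linarith)
  obtain ⟨c, Y0, hc, hco⟩ := hco (min η0 (ε / 2)) hη (min_le_left _ _)
  have hηε : min η0 (ε / 2) ≤ ε / 2 := min_le_right _ _
  set η : ℝ := min η0 (ε / 2) with hηdef
  refine ⟨c / 4, 4 + 2 * ⌈max Y0 (Real.exp ((M0 + 1) / η))⌉₊, by positivity, ?_⟩
  intro X Y hY hYX
  set Z : ℕ := Y / 2 with hZ
  have hZ1 : ⌈max Y0 (Real.exp ((M0 + 1) / η))⌉₊ ≤ Z := by omega
  have hZ2 : 2 * Z ≤ Y := by omega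
  have hZ4 : Y ≤ 4 * Z := by omega
  have hZr : max Y0 (Real.exp ((M0 + 1) / η)) ≤ (Z : ℝ) :=
    (Nat.le_ceil _).trans (by exact_mod_cast hZ1)
  have a1 : Y0 ≤ Z := (le_max_left _ _).trans hZr
  have a2 : Real.exp ((M0 + 1) / η) ≤ Z := (le_max_right _ _).trans hZr
  have hZpos : (0 : ℝ) < Z := (Real.exp_pos _).trans_le a2
  have hL : ((M0 : ℝ) + 1) / η ≤ Real.log Z := (Real.le_log_iff_exp_le hZpos).mpr a2
  have hL0 : 0 ≤ Real.log Z := le_trans (by positivity) hL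
  have hLX : Real.log Z ≤ Real.log X := by
    refine Real.log_le_log hZpos ?_
    exact_mod_cast (show Z ≤ X by omega)
  set M : ℕ := ⌊η * Real.log Z⌋₊ with hM
  have hM0 : M0 ≤ M := by
    apply Nat.le_floor
    have e1 : η * (((M0 : ℝ) + 1) / η) = M0 + 1 := by field_simp
    have e2 : η * (((M0 : ℝ) + 1) / η) ≤ η * Real.log Z := mul_le_mul_of_nonneg_left hL hη.le
    linarith
  have hM2 : 2 * (M : ℝ) ≤ ε * Real.log X := by
    have e1 : (M : ℝ) ≤ η * Real.log Z := Nat.floor_le (mul_nonneg hη.le hL0)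
    have e2 : η * Real.log Z ≤ ε / 2 * Real.log X :=
      mul_le_mul hηε hLX hL0 (by linarith)
    linarith
  obtain ⟨𝓗, hcard, hH⟩ := (hfam M hM0).1
  have hW := hco Z M 𝓗 a1 hM (fun h hh => ⟨(hH h hh).1.injective, (hH h hh).2.1⟩) (by
    intro h hh h' hh' him
    have e : Set.range h = Set.range h' := by
      have := congrArg (fun s : Finset ℕ => (s : Set ℕ)) him
      simpa [Finset.coe_image] using this
    exact ((hH h hh).1.range_inj (hH h' hh').1).mp e) hcard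
  have hsub : ((Icc 1 (2 * Z)).filter (fun N => ∃ h ∈ 𝓗,
      m + 1 + 1 ≤ (univ.filter (fun j => (N + h j).Prime)).card ∧
      ∀ t, 1 ≤ t → t ≤ M → (N + t).Prime → ∃ j, h j = t)) ⊆
      (Icc 1 Y).filter (fun g => Win m C g (ε * Real.log X)) := by
    intro N hN
    rw [mem_filter, mem_Icc] at hN
    obtain ⟨hr, h, hh, hcnt, hpr⟩ := hN
    obtain ⟨k1, k2, k3, k4⟩ := h2 K M N m (fun x y => C * x < y) h (hH h hh).1
      (fun j => ⟨((hH h hh).2.1 j).1, ((hH h hh).2.1 j).2.1⟩) (hH h hh).2.2 hcnt hpr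
    rw [mem_filter, mem_Icc]
    refine ⟨⟨hr.1, le_trans hr.2 hZ2⟩, Nat.primeCounting N, k1, ?_, k3⟩
    have e := App_sum (Nat.primeCounting N) (m + 1)
    have e2 : Nat.nth Nat.Prime (Nat.primeCounting N + m + 1) ≤ N + M + M := by
      rw [show Nat.primeCounting N + m + 1 = Nat.primeCounting N + (m + 1) from rfl, e]
      omega
    have e3 : (Nat.nth Nat.Prime (Nat.primeCounting N + m + 1) : ℝ) ≤ N + M + M := by exact_mod_cast e2
    linarith
  have h4 : (Y : ℝ) ≤ 4 * Z := by exact_mod_cast hZ4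
  calc c / 4 * Y ≤ c / 4 * (4 * Z) := mul_le_mul_of_nonneg_left h4 (by linarith)
    _ = c * Z := by ring
    _ ≤ _ := hW
    _ ≤ _ := by exact_mod_cast card_le_card hsub

/-- larger windows -/
private theorem App_mono (m : ℕ) (C : ℝ) (a b : ℕ) (L L' : ℝ) (hab : a ≤ b) (h : (b : ℝ) + L ≤ a + L')
    (hw : Win m C b L) : Win m C a L' := by
  obtain ⟨n, h1, h2, h3⟩ := hw
  exact ⟨n, lt_of_le_of_lt hab h1, le_trans h2 h, h3⟩

open Classical in
private theorem App_small (X : ℕ) : ((Icc 1 X).filter (fun y => y ^ 2 < X)).card ≤ Nat.sqrt X := by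
  have h : (Icc 1 X).filter (fun y => y ^ 2 < X) ⊆ Icc 1 (Nat.sqrt X) := by
    intro y hy
    rw [mem_filter, mem_Icc] at hy
    rw [mem_Icc]
    refine ⟨hy.1.1, Nat.le_sqrt.2 ?_⟩
    have := hy.2
    nlinarith
  have h2 := card_le_card h
  rwa [Nat.card_Icc, Nat.add_sub_cancel] at h2

theorem tWd (h0 : DhjStmt) (h1 : CoUStmt) (h2 : WiUStmt) (h3 : GeUStmt) : WdStmt := by
  classical
  intro k m C ε hk hε
  obtain ⟨δ, Y1, hδ, hden⟩ := App_dense h1 h2 h3 m C (ε / 4) (by linarith)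
  obtain ⟨r, hr⟩ := tDil h0 k δ hk hδ
  refine ⟨r, fun f hf => ?_⟩
  obtain ⟨c, S, X0, hc, hS, hdil⟩ := hr f hf
  refine ⟨c / 4 / 2 ^ r, by positivity, X0 + Y1 ^ 2 + 1 + ⌈Real.exp (4 * S / ε)⌉₊ + ⌈(2 / c) ^ 2⌉₊, ?_⟩
  intro X hX
  have b1 : X0 ≤ X := by omega
  have b2 : Y1 ^ 2 < X := by omega
  have b3 : Real.exp (4 * S / ε) ≤ X := (Nat.le_ceil _).trans (by
    exact_mod_cast (show ⌈Real.exp (4 * S / ε)⌉₊ ≤ X by omega))
  have b4 : (2 / c) ^ 2 ≤ (X : ℝ) := (Nat.le_ceil _).trans (by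
    exact_mod_cast (show ⌈(2 / c) ^ 2⌉₊ ≤ X by omega))
  have hXpos : (0 : ℝ) < X := (Real.exp_pos _).trans_le b3
  have hLS : 4 * S / ε ≤ Real.log X := (Real.le_log_iff_exp_le hXpos).mpr b3
  have hLS' : (S : ℝ) ≤ ε / 4 * Real.log X := by
    rw [div_le_iff₀ hε] at hLS
    linarith
  have hmain := hdil X (fun g => Win m C g (ε / 4 * Real.log X)) b1 (by
    intro Y hY1 hY2
    refine hden X Y ?_ hY2
    by_contra hc2
    have : Y ^ 2 ≤ Y1 ^ 2 := Nat.pow_le_pow_left (by omega) 2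
    omega)
  set A := (Icc 1 X).filter (fun y => ∃ T : Finset (Fin r), T.Nonempty ∧
      ∀ j : Fin k, ∃ g : ℕ, Win m C g (ε / 4 * Real.log X) ∧ (∏ t ∈ T, f t j) * y ≤ g ∧
        g < (∏ t ∈ T, f t j) * y + S) with hA
  set R := (Icc 1 X).filter (fun y => ∃ T : Finset (Fin r), T.Nonempty ∧
      ∀ j : Fin k, Win m C ((∏ t ∈ T, f t j) * y) (ε * Real.log y)) with hR
  have hsub : A ⊆ R ∪ (Icc 1 X).filter (fun y => y ^ 2 < X) := by
    intro y hy
    rw [hA, mem_filter] at hy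
    obtain ⟨hyX, T, hT, hj⟩ := hy
    rw [mem_union]
    by_cases hs : y ^ 2 < X
    · right
      rw [mem_filter]
      exact ⟨hyX, hs⟩
    · left
      rw [hR, mem_filter]
      refine ⟨hyX, T, hT, fun j => ?_⟩
      obtain ⟨g, hg, hg1, hg2⟩ := hj j
      refine App_mono m C _ g (ε / 4 * Real.log X) _ hg1 ?_ hg
      have hlog : Real.log X ≤ 2 * Real.log y := by
        have e1 : (X : ℝ) ≤ (y : ℝ) ^ 2 := by exact_mod_cast not_lt.1 hs
        have e2 := Real.log_le_log hXpos e1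
        rwa [Real.log_pow, Nat.cast_ofNat] at e2
      have hg2' : (g : ℝ) ≤ (((∏ t ∈ T, f t j) * y : ℕ) : ℝ) + S := by exact_mod_cast hg2.le
      have e3 : ε / 2 * Real.log X ≤ ε / 2 * (2 * Real.log y) :=
        mul_le_mul_of_nonneg_left hlog (by linarith)
      linarith
  have hcard : (A.card : ℝ) ≤ R.card + Nat.sqrt X := by
    have e1 : A.card ≤ R.card + Nat.sqrt X :=
      le_trans (card_le_card hsub) (le_trans (card_union_le _ _) (Nat.add_le_add_left (App_small X) _))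
    exact_mod_cast e1
  have hsq : (Nat.sqrt X : ℝ) ≤ c / 2 * X := by
    have e1 : (Nat.sqrt X : ℝ) ≤ Real.sqrt X := Real.nat_sqrt_le_real_sqrt
    have e2 : 2 / c ≤ Real.sqrt X := Real.le_sqrt_of_sq_le b4
    have e3 : Real.sqrt X * Real.sqrt X = X := Real.mul_self_sqrt hXpos.le
    have e4 : 1 ≤ c / 2 * Real.sqrt X := by
      have := mul_le_mul_of_nonneg_left e2 (show 0 ≤ c / 2 by linarith)
      have e5 : c / 2 * (2 / c) = 1 := by field_simp
      linarith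
    have e6 := mul_le_mul_of_nonneg_right e4 (Real.sqrt_nonneg (X : ℝ))
    nlinarith
  have hRc : c / 2 * X ≤ (R.card : ℝ) := by linarith
  by_contra hcon
  push Not at hcon
  have hu : R ⊆ (univ.filter (fun T : Finset (Fin r) => T.Nonempty)).biUnion (fun T =>
      (Icc 1 X).filter (fun y => ∀ j : Fin k, Win m C ((∏ t ∈ T, f t j) * y) (ε * Real.log y))) := by
    intro y hy
    rw [hR, mem_filter] at hy
    obtain ⟨hyX, T, hT, hj⟩ := hy
    rw [mem_biUnion]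
    exact ⟨T, mem_filter.2 ⟨mem_univ _, hT⟩, mem_filter.2 ⟨hyX, hj⟩⟩
  have hu2 : (R.card : ℝ) ≤ ∑ T ∈ univ.filter (fun T : Finset (Fin r) => T.Nonempty),
      (((Icc 1 X).filter (fun y => ∀ j : Fin k,
        Win m C ((∏ t ∈ T, f t j) * y) (ε * Real.log y))).card : ℝ) := by
    exact_mod_cast le_trans (card_le_card hu) card_biUnion_le
  have hu3 : ∑ T ∈ univ.filter (fun T : Finset (Fin r) => T.Nonempty),
      (((Icc 1 X).filter (fun y => ∀ j : Fin k,
        Win m C ((∏ t ∈ T, f t j) * y) (ε * Real.log y))).card : ℝ) ≤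
      ((univ.filter (fun T : Finset (Fin r) => T.Nonempty)).card : ℝ) * (c / 4 / 2 ^ r * X) := by
    rw [← nsmul_eq_mul]
    exact sum_le_card_nsmul _ _ _ (fun T hT => (hcon T (mem_filter.1 hT).2).le)
  have hu4 : ((univ.filter (fun T : Finset (Fin r) => T.Nonempty)).card : ℝ) ≤ 2 ^ r := by
    have e1 : (univ.filter (fun T : Finset (Fin r) => T.Nonempty)).card ≤ 2 ^ r := by
      refine le_trans (card_le_univ _) (le_of_eq ?_)
      rw [Fintype.card_finset, Fintype.card_fin]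
    exact_mod_cast e1
  have hu5 : ((univ.filter (fun T : Finset (Fin r) => T.Nonempty)).card : ℝ) * (c / 4 / 2 ^ r * X) ≤
      2 ^ r * (c / 4 / 2 ^ r * X) := mul_le_mul_of_nonneg_right hu4 (by positivity)
  have hu6 : (2 : ℝ) ^ r * (c / 4 / 2 ^ r * X) = c / 4 * X := by
    field_simp
  have hcX : 0 < c * (X : ℝ) := mul_pos hc hXpos
  linarith

end Pool.Agent.Lib.MP_fb5b0b_nt.WD
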