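import Pool.Agent.Lib.RU.AllV
import Pool.Agent.Lib.RU.WiU
import Pool.Agent.Lib.RU.GeU
import Pool.Agent.Lib.MP_fb5b0b_nt.WD.App

/-!
MP_fb5b0b_nt, directory WD (helper92): short windows at dilates. Composition.
-/

set_option autoImplicit false

namespace Pool.Agent.Lib.MP_fb5b0b_nt.WD

/-- THEOREM WD -/
theorem wdAll : WdStmt :=
  tWd Pool.Agent.Lib.MP_9f2731_nt.GP.Dhj.dhjAll Pool.Agent.Lib.RU.aCoU Pool.Agent.Lib.RU.tWiU
    Pool.Agent.Lib.RU.tGeU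

end Pool.Agent.Lib.MP_fb5b0b_nt.WD
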