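import Pool.Agent.Lib.RU.GeV

/-!
MP_fb5b0b_nt, directory WD (helper92): windows with exactly m primes. Module ExA: one window.
-/

set_option autoImplicit false

namespace Pool.Agent.Lib.MP_fb5b0b_nt.WD

open Finset
open Pool.Agent.Lib.RU

/-- the interval (a, b] contains exactly m primes, and every gap between them is more than C times the
preceding one -/
def WinE (m : ℕ) (C : ℝ) (a b : ℕ) : Prop :=
  Nat.primeCounting b = Nat.primeCounting a + m ∧
    ∀ i, i + 3 ≤ m → C * (gp (Nat.primeCounting a + i) : ℝ) < gp (Nat.primeCounting a + i + 1)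

/-- the number of primes in the window -/
private theorem ExA_count (K M N m : ℕ) (h : Fin K → ℕ) (hh : StrictMono h)
    (h1 : ∀ j, 1 ≤ h j ∧ h j ≤ M)
    (h3 : m + 1 ≤ (univ.filter (fun j => (N + h j).Prime)).card) :
    Nat.primeCounting N + (m + 1) ≤ Nat.count Nat.Prime (N + M + 1) := by
  have e1 : N + M + 1 = (N + 1) + M := by ring
  have e2 : Nat.count Nat.Prime (N + M + 1) =
      Nat.primeCounting N + Nat.count (fun k => Nat.Prime (N + 1 + k)) M := by
    rw [e1, Nat.count_add]
    rfl
  have e3 : (univ.filter (fun j : Fin K => (N + h j).Prime)).card ≤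
      Nat.count (fun k => Nat.Prime (N + 1 + k)) M := by
    rw [Nat.count_eq_card_filter_range]
    refine Finset.card_le_card_of_injOn (fun j => h j - 1) ?_ ?_
    · intro j hj
      rw [Finset.mem_coe, Finset.mem_filter] at hj
      rw [Finset.mem_coe, Finset.mem_filter, Finset.mem_range]
      have h4 := h1 j
      have e5 : h j - 1 < M := by omega
      have e4 : N + 1 + (h j - 1) = N + h j := by omega
      refine ⟨e5, ?_⟩
      show Nat.Prime (N + 1 + (h j - 1))
      rw [e4]
      exact hj.2
    · intro j _ j' _ hjj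
      have h4 := h1 j
      have h5 := h1 j'
      simp only at hjj
      exact hh.injective (by omega)
  omega

/-- the first m + 1 primes after N -/
theorem exA_primes (K M N m : ℕ) (h : Fin K → ℕ) (hh : StrictMono h) (h1 : ∀ j, 1 ≤ h j ∧ h j ≤ M)
    (h3 : m + 1 ≤ (univ.filter (fun j => (N + h j).Prime)).card)
    (h4 : ∀ t, 1 ≤ t → t ≤ M → (N + t).Prime → ∃ j, h j = t) :
    ∀ i, i ≤ m → ∃ j : Fin K, Nat.nth Nat.Prime (Nat.primeCounting N + i) = N + h j := by
  intro i hi
  have hinf : (Set.ofPred Nat.Prime).Infinite := Nat.infinite_setOfPred_prime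
  have hcnt := ExA_count K M N m h hh h1 h3
  have hlow : N + 1 ≤ Nat.nth Nat.Prime (Nat.primeCounting N + i) := by
    have h5 : N + 1 ≤ Nat.nth Nat.Prime (Nat.count Nat.Prime (N + 1)) :=
      (Nat.count_le_iff_le_nth hinf).1 le_rfl
    refine le_trans h5 ?_
    exact (Nat.nth_strictMono hinf).monotone (Nat.le_add_right _ _)
  have hup : Nat.nth Nat.Prime (Nat.primeCounting N + i) < N + M + 1 :=
    Nat.nth_lt_of_lt_count (by omega)
  have hp : (Nat.nth Nat.Prime (Nat.primeCounting N + i)).Prime := Nat.prime_nth_prime _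
  obtain ⟨t, ht⟩ : ∃ t, Nat.nth Nat.Prime (Nat.primeCounting N + i) = N + t :=
    ⟨Nat.nth Nat.Prime (Nat.primeCounting N + i) - N, by omega⟩
  rw [ht] at hp hlow hup
  obtain ⟨j, hj⟩ := h4 t (by omega) (by omega) hp
  exact ⟨j, by rw [ht, hj]⟩

/-- the window (a, b] around the first m primes after N -/
theorem exA_win (K N m : ℕ) (C : ℝ) (hm : 1 ≤ m) (h : Fin K → ℕ) (hh : StrictMono h)
    (hrel : ∀ i j k : Fin K, i < j → j < k → C * ((h j : ℝ) - h i) < (h k : ℝ) - h j)
    (J : ℕ → Fin K) (hJ : ∀ i, i ≤ m → Nat.nth Nat.Prime (Nat.primeCounting N + i) = N + h (J i))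
    (a b : ℕ) (ha : N ≤ a) (ha2 : a < N + h (J 0)) (hb : N + h (J (m - 1)) ≤ b)
    (hb2 : b < N + h (J m)) : WinE m C a b := by
  have hinf : (Set.ofPred Nat.Prime).Infinite := Nat.infinite_setOfPred_prime
  have ea : Nat.primeCounting a = Nat.primeCounting N := by
    refine le_antisymm ?_ (Nat.monotone_primeCounting ha)
    have h5 := hJ 0 (by omega)
    rw [Nat.add_zero] at h5
    exact (Nat.count_le_iff_le_nth hinf).2 (by omega)
  have eb : Nat.primeCounting b = Nat.primeCounting N + m := by
    refine le_antisymm ?_ ?_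
    · have h5 := hJ m le_rfl
      exact (Nat.count_le_iff_le_nth hinf).2 (by omega)
    · have h5 := hJ (m - 1) (by omega)
      have h6 : Nat.primeCounting N + (m - 1) < Nat.count Nat.Prime (b + 1) := by
        by_contra hc
        push Not at hc
        have h7 := (Nat.count_le_iff_le_nth hinf).1 hc
        omega
      have h7 : Nat.primeCounting b = Nat.count Nat.Prime (b + 1) := rfl
      omega
  refine ⟨by rw [ea, eb], ?_⟩
  intro i hi
  rw [ea]
  have hJm : ∀ i, i + 1 ≤ m → J i < J (i + 1) := by
    intro i hi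
    have h5 := hJ i (by omega)
    have h6 := hJ (i + 1) hi
    have h7 := Nat.nth_strictMono hinf (show Nat.primeCounting N + i < Nat.primeCounting N + (i + 1) by
      omega)
    rw [h5, h6] at h7
    exact hh.lt_iff_lt.1 (by omega)
  have hg : ∀ i, i + 1 ≤ m → (gp (Nat.primeCounting N + i) : ℝ) = (h (J (i + 1)) : ℝ) - h (J i) := by
    intro i hi
    unfold gp
    have h5 := hJ i (by omega)
    have h6 := hJ (i + 1) hi
    have h7 := hh (hJm i hi)
    rw [show Nat.primeCounting N + i + 1 = Nat.primeCounting N + (i + 1) from rfl, h5, h6,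
      Nat.cast_sub (by omega)]
    push_cast
    ring
  rw [hg i (by omega), show Nat.primeCounting N + i + 1 = Nat.primeCounting N + (i + 1) from rfl,
    hg (i + 1) (by omega)]
  exact hrel _ _ _ (hJm i (by omega)) (hJm (i + 1) (by omega))

end Pool.Agent.Lib.MP_fb5b0b_nt.WD
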