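import Pool.Agent.Lib.MP_fb5b0b_nt.WD.ExA

/-!
MP_fb5b0b_nt, directory WD (helper92): windows with exactly m primes. Module ExB: the windows of length
⌊ε log X⌋ with exactly m primes, also after moving both ends by at most A, have a density which does not depend
on A.
-/

set_option autoImplicit false

namespace Pool.Agent.Lib.MP_fb5b0b_nt.WD

open Finset
open Pool.Agent.Lib.RU Pool.Agent.Lib.RU.GeVM

/-- g is the left end of a robust window -/
def GxE (m : ℕ) (C ε : ℝ) (A X g : ℕ) : Prop := ∀ a b : ℕ, g ≤ a + A → a ≤ g + A →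
  g + ⌊ε * Real.log X⌋₊ ≤ b + A → b ≤ g + ⌊ε * Real.log X⌋₊ + A → WinE m C a b

/-- consecutive places have distance at least T -/
private theorem ExB_gap {K : ℕ} (c T : ℕ) (t : Fin K → ℕ) (ht : ∀ j, t j < T) (i j : Fin K)
    (hij : i < j) : ee c T t i + T ≤ ee c T t j := by
  unfold ee
  have h1 : (i : ℕ) + 1 + 1 ≤ (j : ℕ) + 1 := by
    have : (i : ℕ) < j := hij
    omega
  have h2 : (c + 3) * ((c + 3) ^ ((i : ℕ) + 1) * T) ≤ (c + 3) ^ ((j : ℕ) + 1) * T := by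
    calc (c + 3) * ((c + 3) ^ ((i : ℕ) + 1) * T) = (c + 3) ^ ((i : ℕ) + 1 + 1) * T := by
          rw [pow_succ (c + 3) ((i : ℕ) + 1)]; ring
      _ ≤ (c + 3) ^ ((j : ℕ) + 1) * T :=
          Nat.mul_le_mul_right _ (Nat.pow_le_pow_right (by omega) h1)
  have h3 : T ≤ (c + 3) ^ ((i : ℕ) + 1) * T := Nat.le_mul_of_pos_left T (by positivity)
  have h4 := ht i
  nlinarith

/-- double counting -/
private theorem ExB_dc (𝓝 G : Finset ℕ) (W T' : ℕ)
    (h : ∀ N ∈ 𝓝, T' ≤ (G.filter (fun g => N ≤ g ∧ g ≤ N + W)).card) :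
    𝓝.card * T' ≤ G.card * (W + 1) := by
  classical
  have h1 : 𝓝.card * T' ≤ ∑ N ∈ 𝓝, (G.filter (fun g => N ≤ g ∧ g ≤ N + W)).card := by
    rw [← smul_eq_mul]
    exact Finset.card_nsmul_le_sum _ _ _ h
  have h2 : ∑ N ∈ 𝓝, (G.filter (fun g => N ≤ g ∧ g ≤ N + W)).card =
      ∑ g ∈ G, (𝓝.filter (fun N => N ≤ g ∧ g ≤ N + W)).card := by
    have e1 : ∀ N ∈ 𝓝, (G.filter (fun g => N ≤ g ∧ g ≤ N + W)).card =
        ∑ g ∈ G, if N ≤ g ∧ g ≤ N + W then 1 else 0 := fun N _ => by rw [card_filter]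
    have e2 : ∀ g ∈ G, (𝓝.filter (fun N => N ≤ g ∧ g ≤ N + W)).card =
        ∑ N ∈ 𝓝, if N ≤ g ∧ g ≤ N + W then 1 else 0 := fun g _ => by rw [card_filter]
    rw [sum_congr rfl e1, sum_congr rfl e2]
    exact sum_comm
  have h3 : ∀ g ∈ G, (𝓝.filter (fun N => N ≤ g ∧ g ≤ N + W)).card ≤ W + 1 := by
    intro g _
    have h4 : 𝓝.filter (fun N => N ≤ g ∧ g ≤ N + W) ⊆ Icc (g - W) g := by
      intro N hN
      have h5 := (mem_filter.1 hN).2
      rw [mem_Icc]
      omega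
    refine le_trans (card_le_card h4) ?_
    rw [Nat.card_Icc]
    omega
  have h5 : ∑ g ∈ G, (𝓝.filter (fun N => N ≤ g ∧ g ≤ N + W)).card ≤ G.card * (W + 1) := by
    rw [← smul_eq_mul]
    exact Finset.sum_le_card_nsmul _ _ _ h3
  omega

/-- one window of CoU gives T - 2 A' windows with exactly m primes -/
private theorem ExB_one (K M N m c F T W A A2 A' X Y : ℕ) (C ε : ℝ) (hm : 1 ≤ m) (hC : |C| ≤ c)
    (hF : 1 ≤ F) (hW : W = 2 * F * (c + 3) ^ K * T) (hWM : 2 * W ≤ M) (t : Fin K → ℕ)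
    (ht : ∀ j, t j < T) (hA' : A' = A + A2 + 1) (hT : 2 * A' ≤ T)
    (hL1 : W ≤ ⌊ε * Real.log X⌋₊) (hL2 : ⌊ε * Real.log X⌋₊ ≤ W + A2) (hN1 : 1 ≤ N) (hNY : N + W ≤ Y)
    (h3 : m + 1 ≤ (univ.filter (fun j : Fin K => (N + (W + F * ee c T t j)).Prime)).card)
    (h4 : ∀ x, 1 ≤ x → x ≤ M → (N + x).Prime → ∃ j : Fin K, W + F * ee c T t j = x)
    (Gs : Finset ℕ) (hGs : ∀ g, 1 ≤ g → g ≤ Y → GxE m C ε A X g → g ∈ Gs) :
    T - 2 * A' ≤ (Gs.filter (fun g => N ≤ g ∧ g ≤ N + W)).card := by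
  obtain ⟨c1, c2, c3⟩ := core c T t ht
  have hb : ∀ j, 0 < F * ee c T t j ∧ F * ee c T t j < W := by
    intro j
    obtain ⟨h5, h6⟩ := c3 j
    refine ⟨by positivity, ?_⟩
    calc F * ee c T t j < F * (2 * (c + 3) ^ K * T) := Nat.mul_lt_mul_of_pos_left h6 hF
      _ = W := by rw [hW]; ring
  obtain ⟨h, hh⟩ : ∃ h : Fin K → ℕ, h = fun j => W + F * ee c T t j := ⟨_, rfl⟩
  have hv : ∀ j, h j = W + F * ee c T t j := fun j => by rw [hh]
  have hmono : StrictMono h := by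
    intro i j hij
    rw [hv, hv]
    have := Nat.mul_lt_mul_of_pos_left (c1 i j hij) hF
    omega
  have hgap : ∀ i j : Fin K, i < j → h i + T ≤ h j := by
    intro i j hij
    rw [hv, hv]
    have h5 := ExB_gap c T t ht i j hij
    have h6 : F * (ee c T t i + T) ≤ F * ee c T t j := Nat.mul_le_mul_left _ h5
    have h7 : T ≤ F * T := Nat.le_mul_of_pos_left T hF
    nlinarith
  have hrel : ∀ i j k : Fin K, i < j → j < k → C * ((h j : ℝ) - h i) < (h k : ℝ) - h j := by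
    intro i j k hij hjk
    have h5 := c1 i j hij
    have h6 := c2 i j k hij hjk
    have h5' : (ee c T t i : ℝ) < ee c T t j := by exact_mod_cast h5
    have h6' : ((c : ℝ) + 1) * ee c T t j < ee c T t k + c * ee c T t i := by exact_mod_cast h6
    have h7 : C * ((ee c T t j : ℝ) - ee c T t i) ≤ c * ((ee c T t j : ℝ) - ee c T t i) :=
      mul_le_mul_of_nonneg_right (le_trans (le_abs_self C) hC) (by linarith)
    have h8 : C * ((ee c T t j : ℝ) - ee c T t i) < ee c T t k - ee c T t j := by linarith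
    have hF2 : (0 : ℝ) < F := by exact_mod_cast hF
    have h9 := mul_lt_mul_of_pos_left h8 hF2
    rw [hv, hv, hv]
    push_cast
    calc C * ((W : ℝ) + F * ee c T t j - (W + F * ee c T t i))
        = F * (C * ((ee c T t j : ℝ) - ee c T t i)) := by ring
      _ < F * (ee c T t k - ee c T t j) := h9
      _ = _ := by ring
  have h1 : ∀ j, 1 ≤ h j ∧ h j ≤ M := by
    intro j
    have := hb j
    rw [hv]
    omega
  have h3' : m + 1 ≤ (univ.filter (fun j : Fin K => (N + h j).Prime)).card := by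
    rw [hh]
    exact h3
  have h4' : ∀ x, 1 ≤ x → x ≤ M → (N + x).Prime → ∃ j : Fin K, h j = x := by
    intro x hx1 hx2 hx3
    obtain ⟨j, hj⟩ := h4 x hx1 hx2 hx3
    exact ⟨j, by rw [hv]; exact hj⟩
  have hP := exA_primes K M N m h hmono h1 h3' h4'
  have hK0 : Nonempty (Fin K) := by
    obtain ⟨j, -⟩ := hP 0 (by omega)
    exact ⟨j⟩
  have hP' : ∀ i : ℕ, ∃ j : Fin K, i ≤ m → Nat.nth Nat.Prime (Nat.primeCounting N + i) = N + h j := by
    intro i
    by_cases hi : i ≤ m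
    · obtain ⟨j, hj⟩ := hP i hi
      exact ⟨j, fun _ => hj⟩
    · exact ⟨hK0.some, fun h => absurd h hi⟩
  choose J hJ using hP'
  have hlt : J (m - 1) < J m := by
    have h5 := hJ (m - 1) (by omega)
    have h6 := hJ m le_rfl
    have h7 := Nat.nth_strictMono Nat.infinite_setOfPred_prime
      (show Nat.primeCounting N + (m - 1) < Nat.primeCounting N + m by omega)
    rw [h5, h6] at h7
    exact hmono.lt_iff_lt.1 (by omega)
  have hg1 := hgap _ _ hlt
  have hbm := hb (J m)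
  have hbm1 := hb (J (m - 1))
  have hb0 := hb (J 0)
  have hvm := hv (J m)
  have hvm1 := hv (J (m - 1))
  have hv0 := hv (J 0)
  -- the interval of the left ends
  have hsub : Icc (N + h (J (m - 1)) + A' - W) (N + h (J m) - A' - W) ⊆
      Gs.filter (fun g => N ≤ g ∧ g ≤ N + W) := by
    intro g hg
    rw [mem_Icc] at hg
    rw [mem_filter]
    refine ⟨hGs g (by omega) (by omega) ?_, by omega, by omega⟩
    intro a b ha1 ha2 hb1 hb2
    exact exA_win K N m C hm h hmono hrel J (fun i hi => hJ i hi) a b (by omega) (by omega) (by omega)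
      (by omega)
  have h10 := card_le_card hsub
  rw [Nat.card_Icc] at h10
  omega

open Classical in
/-- the density of the robust windows with exactly m primes -/
theorem exB_dense (h1 : CoUStmt) (m : ℕ) (hm : 1 ≤ m) (C : ℝ) : ∃ ε0 : ℝ, 0 < ε0 ∧ ∀ ε : ℝ, 0 < ε →
    ε ≤ ε0 → ∃ δ : ℝ, 0 < δ ∧ ∀ A : ℕ, 1 ≤ A → ∃ Y1 : ℕ, ∀ X Y : ℕ, Y1 ≤ Y → Y ≤ X → X ≤ A * Y →
      δ * Y ≤ (((Icc 1 Y).filter (GxE m C ε A X)).card : ℝ) := by
  obtain ⟨K, hK, hco⟩ := h1 m
  obtain ⟨c, hc⟩ : ∃ c : ℕ, |C| ≤ c := exists_nat_ge _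
  obtain ⟨F, hF⟩ : ∃ F, F = K.factorial := ⟨_, rfl⟩
  have hF1 : 1 ≤ F := by rw [hF]; exact Nat.factorial_pos K
  obtain ⟨B, hB⟩ : ∃ B, B = 2 * F * (c + 3) ^ K := ⟨_, rfl⟩
  have hB1 : 1 ≤ B := by
    rw [hB]
    exact Nat.mul_pos (by omega) (by positivity)
  have hBr : (1 : ℝ) ≤ B := by exact_mod_cast hB1
  obtain ⟨η0, hη0, hco⟩ := hco ((1 / (4 * B)) ^ K) (by positivity)
  refine ⟨min 1 (η0 / 2), by positivity, fun ε hε hε0 => ?_⟩
  have hε1 : ε ≤ 1 := le_trans hε0 (min_le_left _ _)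
  have hε2 : 2 * ε ≤ η0 := by
    have := le_trans hε0 (min_le_right _ _)
    linarith
  obtain ⟨c1, Y0, hc1, hco⟩ := hco (2 * ε) (by linarith) hε2
  refine ⟨c1 / (32 * B), by positivity, fun A hA => ?_⟩
  obtain ⟨A2, hA2⟩ : ∃ A2 : ℕ, (B : ℝ) + ε * Real.log (8 * A) ≤ A2 := exists_nat_ge _
  obtain ⟨A', hA'⟩ : ∃ A', A' = A + A2 + 1 := ⟨_, rfl⟩
  obtain ⟨Z0, hZ0⟩ : ∃ Z0 : ℕ, max Y0 (Real.exp (B * (4 * A' + 4) / ε)) ≤ (Z0 : ℝ) := exists_nat_ge _
  refine ⟨4 * Z0 + 8, fun X Y hY hYX hXA => ?_⟩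
  obtain ⟨Z, hZ⟩ : ∃ Z, Z = Y / 4 := ⟨_, rfl⟩
  have hZa : Z0 ≤ Z := by omega
  have hZb : 4 * Z ≤ Y := by omega
  have hZc : Y ≤ 8 * Z := by omega
  have hZr : max Y0 (Real.exp (B * (4 * A' + 4) / ε)) ≤ (Z : ℝ) :=
    hZ0.trans (by exact_mod_cast hZa)
  have a1 : Y0 ≤ Z := (le_max_left _ _).trans hZr
  have a2 : Real.exp (B * (4 * A' + 4) / ε) ≤ Z := (le_max_right _ _).trans hZr
  have hZpos : (0 : ℝ) < Z := (Real.exp_pos _).trans_le a2
  have hL : (B : ℝ) * (4 * A' + 4) / ε ≤ Real.log Z := (Real.le_log_iff_exp_le hZpos).mpr a2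
  have hLε : (B : ℝ) * (4 * A' + 4) ≤ ε * Real.log Z := by
    rw [div_le_iff₀ hε] at hL
    linarith
  have hA'0 : (0 : ℝ) ≤ A' := Nat.cast_nonneg _
  have hL0 : 0 ≤ Real.log Z := le_trans (by positivity) hL
  have hLZ : Real.log Z ≤ Z := by
    have := Real.log_le_sub_one_of_pos hZpos
    linarith
  have hεZ : ε * Real.log Z ≤ Z := by
    have := mul_le_mul_of_nonneg_right hε1 hL0
    linarith
  have hAr : (1 : ℝ) ≤ A := by exact_mod_cast hA
  have hXpos : (0 : ℝ) < X := by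
    have : (Y : ℝ) ≤ X := by exact_mod_cast hYX
    have h2 : (4 : ℝ) * Z ≤ Y := by exact_mod_cast hZb
    linarith
  have hZX : Real.log Z ≤ Real.log X := by
    refine Real.log_le_log hZpos ?_
    exact_mod_cast (show Z ≤ X by omega)
  have hXZ : Real.log X ≤ Real.log (8 * A) + Real.log Z := by
    rw [← Real.log_mul (by positivity) (by positivity)]
    refine Real.log_le_log hXpos ?_
    have h2 : X ≤ 8 * A * Z := by
      calc X ≤ A * Y := hXA
        _ ≤ A * (8 * Z) := Nat.mul_le_mul_left _ hZc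
        _ = 8 * A * Z := by ring
    exact_mod_cast h2
  obtain ⟨T, hT⟩ : ∃ T, T = ⌊ε * Real.log Z / B⌋₊ := ⟨_, rfl⟩
  obtain ⟨W, hW⟩ : ∃ W, W = 2 * F * (c + 3) ^ K * T := ⟨_, rfl⟩
  obtain ⟨M, hM⟩ : ∃ M, M = ⌊2 * ε * Real.log Z⌋₊ := ⟨_, rfl⟩
  have hWB : W = B * T := by rw [hW, hB]
  have hWBr : (W : ℝ) = B * T := by rw [hWB]; push_cast; ring
  have hq0 : 0 ≤ ε * Real.log Z / B := by positivity
  have hTle : (T : ℝ) ≤ ε * Real.log Z / B := by rw [hT]; exact Nat.floor_le hq0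
  have hTgt : ε * Real.log Z / B < T + 1 := by rw [hT]; exact Nat.lt_floor_add_one _
  have hB0 : (0 : ℝ) < B := by linarith
  have hWle : (W : ℝ) ≤ ε * Real.log Z := by
    rw [le_div_iff₀ hB0] at hTle
    rw [hWBr]
    linarith
  have hWgt : ε * Real.log Z < W + B := by
    rw [div_lt_iff₀ hB0] at hTgt
    rw [hWBr]
    linarith
  have hTbig : (4 : ℝ) * A' + 3 ≤ T := by
    have e1 : (4 : ℝ) * A' + 4 ≤ ε * Real.log Z / B := by
      rw [le_div_iff₀ hB0]
      linarith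
    linarith
  have hTn : 4 * A' + 3 ≤ T := by exact_mod_cast hTbig
  have hMle : (M : ℝ) ≤ 2 * ε * Real.log Z := by rw [hM]; exact Nat.floor_le (by positivity)
  have hWM : 2 * W ≤ M := by
    rw [hM]
    apply Nat.le_floor
    push_cast
    linarith
  have hL1 : W ≤ ⌊ε * Real.log X⌋₊ := by
    apply Nat.le_floor
    exact le_trans hWle (mul_le_mul_of_nonneg_left hZX hε.le)
  have hL2 : ⌊ε * Real.log X⌋₊ ≤ W + A2 := by
    have e1 : (⌊ε * Real.log X⌋₊ : ℝ) ≤ ε * Real.log X :=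
      Nat.floor_le (mul_nonneg hε.le (le_trans hL0 hZX))
    have e2 : ε * Real.log X ≤ ε * (Real.log (8 * A) + Real.log Z) :=
      mul_le_mul_of_nonneg_left hXZ hε.le
    have e3 : (⌊ε * Real.log X⌋₊ : ℝ) ≤ W + A2 := by linarith
    exact_mod_cast e3
  have hWZ : W ≤ Z := by
    have : (W : ℝ) ≤ Z := le_trans hWle hεZ
    exact_mod_cast this
  -- the family
  obtain ⟨S, hS⟩ : ∃ S : Finset (Fin K → ℕ), S = Fintype.piFinset (fun _ : Fin K => range T) :=
    ⟨_, rfl⟩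
  have hSm : ∀ t ∈ S, ∀ j, t j < T := by
    intro t ht j
    rw [hS, Fintype.mem_piFinset] at ht
    exact Finset.mem_range.1 (ht j)
  have hSc : (S.card : ℝ) = (T : ℝ) ^ K := by
    rw [hS, Fintype.card_piFinset_const, card_range]
    push_cast
    rfl
  obtain ⟨H, hH⟩ : ∃ H : (Fin K → ℕ) → (Fin K → ℕ), H = fun t j => W + F * ee c T t j := ⟨_, rfl⟩
  have hHv : ∀ t j, H t j = W + F * ee c T t j := fun t j => by rw [hH]
  have hHb : ∀ t ∈ S, ∀ j, 0 < F * ee c T t j ∧ F * ee c T t j < W := by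
    intro t ht j
    obtain ⟨h5, h6⟩ := (core c T t (hSm t ht)).2.2 j
    refine ⟨by positivity, ?_⟩
    calc F * ee c T t j < F * (2 * (c + 3) ^ K * T) := Nat.mul_lt_mul_of_pos_left h6 hF1
      _ = W := by rw [hW]; ring
  have hHm : ∀ t ∈ S, StrictMono (H t) := by
    intro t ht i j hij
    rw [hHv, hHv]
    have := Nat.mul_lt_mul_of_pos_left ((core c T t (hSm t ht)).1 i j hij) hF1
    omega
  have hcard : (1 / (4 * (B : ℝ))) ^ K * (M : ℝ) ^ K ≤ ((S.image H).card : ℝ) := by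
    rw [Finset.card_image_of_injOn, hSc, ← mul_pow]
    · refine pow_le_pow_left₀ (by positivity) ?_ _
      have e1 : ε * Real.log Z / B ≤ 2 * T := by linarith
      rw [div_le_iff₀ hB0] at e1
      have e2 : 1 / (4 * (B : ℝ)) * M = M / (4 * B) := by ring
      rw [e2, div_le_iff₀ (by positivity)]
      nlinarith
    · intro t ht t' ht' htt
      funext j
      have h5 := congrFun htt j
      rw [hHv, hHv] at h5
      have h6 : F * ee c T t j = F * ee c T t' j := by omega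
      have h7 := Nat.eq_of_mul_eq_mul_left hF1 h6
      unfold ee at h7
      omega
  have hWin := hco Z M (S.image H) a1 hM (by
      intro h hh
      rw [Finset.mem_image] at hh
      obtain ⟨t, ht, rfl⟩ := hh
      refine ⟨(hHm t ht).injective, fun j => ?_⟩
      have h5 := hHb t ht j
      rw [hHv]
      refine ⟨by omega, by omega, ?_⟩
      rw [← hF]
      refine dvd_add ⟨2 * (c + 3) ^ K * T, by rw [hW]; ring⟩ (dvd_mul_right _ _)) (by
      intro h hh h' hh' him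
      rw [Finset.mem_image] at hh hh'
      obtain ⟨t, ht, rfl⟩ := hh
      obtain ⟨t', ht', rfl⟩ := hh'
      have e : Set.range (H t) = Set.range (H t') := by
        have := congrArg (fun s : Finset ℕ => (s : Set ℕ)) him
        simpa [Finset.coe_image] using this
      exact ((hHm t ht).range_inj (hHm t' ht')).mp e) hcard
  set 𝓝 := (Icc 1 (2 * Z)).filter (fun N => ∃ h ∈ S.image H,
    m + 1 ≤ (univ.filter (fun j => (N + h j).Prime)).card ∧
    ∀ t, 1 ≤ t → t ≤ M → (N + t).Prime → ∃ j, h j = t) with h𝓝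
  set Gs := (Icc 1 Y).filter (GxE m C ε A X) with hGs
  have hdc := ExB_dc 𝓝 Gs W (T - 2 * A') (by
    intro N hN
    rw [h𝓝, mem_filter, mem_Icc] at hN
    obtain ⟨hN1, h, hh, hcnt, hpr⟩ := hN
    rw [Finset.mem_image] at hh
    obtain ⟨t, ht, rfl⟩ := hh
    simp only [hHv] at hcnt hpr
    exact ExB_one K M N m c F T W A A2 A' X Y C ε hm hc hF1 hW hWM t (hSm t ht) hA' (by omega) hL1 hL2
      hN1.1 (by omega) hcnt hpr Gs (fun g h5 h6 h7 => mem_filter.2 ⟨mem_Icc.2 ⟨h5, h6⟩, h7⟩))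
  have hdc' : (𝓝.card : ℝ) * (T - 2 * A' : ℕ) ≤ Gs.card * (W + 1) := by exact_mod_cast hdc
  have hsub : ((T - 2 * A' : ℕ) : ℝ) = T - 2 * A' := by
    rw [Nat.cast_sub (by omega)]
    push_cast
    ring
  rw [hsub] at hdc'
  have hT0 : (0 : ℝ) < T := by linarith
  have h6 : (𝓝.card : ℝ) * (T / 2) ≤ Gs.card * (2 * B * T) := by
    have e1 : (𝓝.card : ℝ) * (T / 2) ≤ 𝓝.card * (T - 2 * A') :=
      mul_le_mul_of_nonneg_left (by linarith) (Nat.cast_nonneg _)
    have e2 : (Gs.card : ℝ) * (W + 1) ≤ Gs.card * (2 * B * T) := by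
      refine mul_le_mul_of_nonneg_left ?_ (Nat.cast_nonneg _)
      rw [hWBr]
      nlinarith
    linarith
  have h7 : (𝓝.card : ℝ) ≤ Gs.card * (4 * B) := by
    have e1 : T * (𝓝.card : ℝ) ≤ T * (Gs.card * (4 * B)) := by linarith
    exact le_of_mul_le_mul_left e1 hT0
  have h8 : (Y : ℝ) ≤ 8 * Z := by exact_mod_cast hZc
  have h9 : c1 / (32 * B) * Y ≤ c1 / (32 * B) * (8 * Z) := mul_le_mul_of_nonneg_left h8 (by positivity)
  have h10 : c1 / (32 * B) * (8 * Z) = c1 * Z / (4 * B) := by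
    field_simp
    ring
  rw [h10] at h9
  refine le_trans h9 ?_
  rw [div_le_iff₀ (by positivity)]
  linarith

end Pool.Agent.Lib.MP_fb5b0b_nt.WD
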