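import Pool.Agent.Lib.MP_fb5b0b_nt.WD.DilE
import Pool.Agent.Lib.MP_fb5b0b_nt.WD.ExB

/-!
MP_fb5b0b_nt, directory WD (helper92): windows with exactly m primes. Module ExC: the theorem.
-/

set_option autoImplicit false

namespace Pool.Agent.Lib.MP_fb5b0b_nt.WD

open Finset
open Pool.Agent.Lib.MP_9f2731_nt.GP Pool.Agent.Lib.RU

open Classical in
/-- THEOREM WE -/
def WeStmt : Prop := ∀ (m : ℕ) (C : ℝ), 1 ≤ m → ∃ ε0 : ℝ, 0 < ε0 ∧ ∀ (k : ℕ) (ε : ℝ), 1 ≤ k → 0 < ε →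
  ε ≤ ε0 → ∃ r : ℕ, ∀ f : Fin r → Fin k → ℕ, (∀ t j, 1 ≤ f t j) → ∃ c : ℝ, 0 < c ∧ ∃ X0 : ℕ, ∀ X : ℕ,
    X0 ≤ X → ∃ T : Finset (Fin r), T.Nonempty ∧
    c * X ≤ (((Icc 1 X).filter (fun y => ∀ j : Fin k,
      WinE m C ((∏ t ∈ T, f t j) * y) ((∏ t ∈ T, f t j) * y + ⌊ε * Real.log y⌋₊))).card : ℝ)

open Classical in
private theorem ExC_small (X : ℕ) (c : ℝ) (hc : 0 < c) :
    (((Icc 1 X).filter (fun y : ℕ => (y : ℝ) ≤ c * X)).card : ℝ) ≤ c * X := by
  have h : (Icc 1 X).filter (fun y : ℕ => (y : ℝ) ≤ c * X) ⊆ Icc 1 ⌊c * X⌋₊ := by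
    intro y hy
    rw [mem_filter, mem_Icc] at hy
    rw [mem_Icc]
    exact ⟨hy.1.1, Nat.le_floor hy.2⟩
  have h2 := card_le_card h
  rw [Nat.card_Icc, Nat.add_sub_cancel] at h2
  have h3 : (⌊c * X⌋₊ : ℝ) ≤ c * X := Nat.floor_le (by positivity)
  have h4 : (((Icc 1 X).filter (fun y : ℕ => (y : ℝ) ≤ c * X)).card : ℝ) ≤ (⌊c * X⌋₊ : ℝ) := by
    exact_mod_cast h2
  linarith

theorem tWe (h0 : DhjStmt) (h1 : CoUStmt) : WeStmt := by
  classical
  intro m C hm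
  obtain ⟨ε0, hε0, hden⟩ := exB_dense h1 m hm C
  refine ⟨ε0, hε0, fun k ε hk hε hεε => ?_⟩
  obtain ⟨δ, hδ, hden⟩ := hden ε hε hεε
  obtain ⟨r, hr⟩ := tDilE h0 k δ hk hδ
  refine ⟨r, fun f hf => ?_⟩
  obtain ⟨c, S, X0, hc, hS, hdil⟩ := hr f hf
  obtain ⟨A, hA⟩ : ∃ A : ℕ, (2 * S : ℝ) + 1 + ε * |Real.log (c / 2)| ≤ A := exists_nat_ge _
  have hSr : (1 : ℝ) ≤ S := by exact_mod_cast hS
  have habs : 0 ≤ ε * |Real.log (c / 2)| := by positivity
  have hAS : 2 * S ≤ A := by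
    have : (2 * S : ℝ) ≤ A := by linarith
    exact_mod_cast this
  obtain ⟨Y1, hden⟩ := hden A (by omega)
  refine ⟨c / 4 / 2 ^ r, by positivity, X0 + 2 * S * Y1 + 1, ?_⟩
  intro X hX
  have b1 : X0 ≤ X := by omega
  have b2 : 2 * S * Y1 < X := by omega
  have hXpos : (0 : ℝ) < X := by
    have : 0 < X := by omega
    exact_mod_cast this
  have hmain := hdil X (GxE m C ε A X) b1 (by
    intro Y hY1 hY2
    refine hden X Y ?_ hY2 (le_trans hY1 (Nat.mul_le_mul_right _ hAS))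
    by_contra hc2
    have h5 : 2 * S * Y ≤ 2 * S * Y1 := Nat.mul_le_mul_left _ (by omega)
    omega)
  set R := (Icc 1 X).filter (fun y => ∃ T : Finset (Fin r), T.Nonempty ∧
      ∀ j : Fin k, WinE m C ((∏ t ∈ T, f t j) * y) ((∏ t ∈ T, f t j) * y + ⌊ε * Real.log y⌋₊)) with hR
  set A0 := (Icc 1 X).filter (fun y => ∃ T : Finset (Fin r), T.Nonempty ∧
      ∀ j : Fin k, ∃ g : ℕ, GxE m C ε A X g ∧ (∏ t ∈ T, f t j) * y ≤ g ∧
        g < (∏ t ∈ T, f t j) * y + S) with hA0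
  have hsub : A0 ⊆ R ∪ (Icc 1 X).filter (fun y : ℕ => (y : ℝ) ≤ c / 2 * X) := by
    intro y hy
    rw [hA0, mem_filter] at hy
    obtain ⟨hyX, T, hT, hj⟩ := hy
    rw [mem_union]
    by_cases hs : (y : ℝ) ≤ c / 2 * X
    · right
      rw [mem_filter]
      exact ⟨hyX, hs⟩
    · left
      rw [hR, mem_filter]
      refine ⟨hyX, T, hT, fun j => ?_⟩
      obtain ⟨g, hg, hg1, hg2⟩ := hj j
      rw [mem_Icc] at hyX
      push Not at hs
      have hy0 : (0 : ℝ) < y := by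
        have : 0 < y := by omega
        exact_mod_cast this
      have hyX' : (y : ℝ) ≤ X := by exact_mod_cast hyX.2
      have hlog1 : Real.log y ≤ Real.log X := Real.log_le_log hy0 hyX'
      have hlog2 : Real.log (c / 2) + Real.log X ≤ Real.log y := by
        rw [← Real.log_mul (by positivity) (by positivity)]
        exact Real.log_le_log (by positivity) hs.le
      have hlogy : 0 ≤ Real.log y := Real.log_natCast_nonneg y
      have f1 : (⌊ε * Real.log y⌋₊ : ℝ) ≤ ε * Real.log y := Nat.floor_le (by positivity)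
      have f2 : ε * Real.log y < (⌊ε * Real.log y⌋₊ : ℝ) + 1 := Nat.lt_floor_add_one _
      have f3 : (⌊ε * Real.log X⌋₊ : ℝ) ≤ ε * Real.log X :=
        Nat.floor_le (mul_nonneg hε.le (le_trans hlogy hlog1))
      have f4 : ⌊ε * Real.log y⌋₊ ≤ ⌊ε * Real.log X⌋₊ :=
        Nat.floor_le_floor (mul_le_mul_of_nonneg_left hlog1 hε.le)
      have f5 : ε * Real.log X ≤ ε * Real.log y + ε * |Real.log (c / 2)| := by
        have e1 : Real.log X ≤ Real.log y + |Real.log (c / 2)| := by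
          have := neg_abs_le (Real.log (c / 2))
          linarith
        have := mul_le_mul_of_nonneg_left e1 hε.le
        linarith
      have f6 : S + ⌊ε * Real.log X⌋₊ ≤ ⌊ε * Real.log y⌋₊ + A := by
        have e1 : (S : ℝ) + ⌊ε * Real.log X⌋₊ ≤ ⌊ε * Real.log y⌋₊ + A := by linarith
        exact_mod_cast e1
      exact hg _ _ (by omega) (by omega) (by omega) (by omega)
  have hcard : (A0.card : ℝ) ≤ R.card + c / 2 * X := by
    have e1 : A0.card ≤ R.card + ((Icc 1 X).filter (fun y : ℕ => (y : ℝ) ≤ c / 2 * X)).card :=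
      le_trans (card_le_card hsub) (card_union_le _ _)
    have e2 : (A0.card : ℝ) ≤
        R.card + (((Icc 1 X).filter (fun y : ℕ => (y : ℝ) ≤ c / 2 * X)).card : ℝ) := by exact_mod_cast e1
    have e3 := ExC_small X (c / 2) (by linarith)
    linarith
  have hRc : c / 2 * X ≤ (R.card : ℝ) := by linarith
  by_contra hcon
  push Not at hcon
  have hu : R ⊆ (univ.filter (fun T : Finset (Fin r) => T.Nonempty)).biUnion (fun T =>
      (Icc 1 X).filter (fun y => ∀ j : Fin k,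
        WinE m C ((∏ t ∈ T, f t j) * y) ((∏ t ∈ T, f t j) * y + ⌊ε * Real.log y⌋₊))) := by
    intro y hy
    rw [hR, mem_filter] at hy
    obtain ⟨hyX, T, hT, hj⟩ := hy
    rw [mem_biUnion]
    exact ⟨T, mem_filter.2 ⟨mem_univ _, hT⟩, mem_filter.2 ⟨hyX, hj⟩⟩
  have hu2 : (R.card : ℝ) ≤ ∑ T ∈ univ.filter (fun T : Finset (Fin r) => T.Nonempty),
      (((Icc 1 X).filter (fun y => ∀ j : Fin k,
        WinE m C ((∏ t ∈ T, f t j) * y) ((∏ t ∈ T, f t j) * y + ⌊ε * Real.log y⌋₊))).card : ℝ) := by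
    exact_mod_cast le_trans (card_le_card hu) card_biUnion_le
  have hu3 : ∑ T ∈ univ.filter (fun T : Finset (Fin r) => T.Nonempty),
      (((Icc 1 X).filter (fun y => ∀ j : Fin k,
        WinE m C ((∏ t ∈ T, f t j) * y) ((∏ t ∈ T, f t j) * y + ⌊ε * Real.log y⌋₊))).card : ℝ) ≤
      ((univ.filter (fun T : Finset (Fin r) => T.Nonempty)).card : ℝ) * (c / 4 / 2 ^ r * X) := by
    rw [← nsmul_eq_mul]
    exact sum_le_card_nsmul _ _ _ (fun T hT => (hcon T (mem_filter.1 hT).2).le)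
  have hu4 : ((univ.filter (fun T : Finset (Fin r) => T.Nonempty)).card : ℝ) ≤ 2 ^ r := by
    have e1 : (univ.filter (fun T : Finset (Fin r) => T.Nonempty)).card ≤ 2 ^ r := by
      refine le_trans (card_le_univ _) (le_of_eq ?_)
      rw [Fintype.card_finset, Fintype.card_fin]
    exact_mod_cast e1
  have hu5 : ((univ.filter (fun T : Finset (Fin r) => T.Nonempty)).card : ℝ) * (c / 4 / 2 ^ r * X) ≤
      2 ^ r * (c / 4 / 2 ^ r * X) := mul_le_mul_of_nonneg_right hu4 (by positivity)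
  have hu6 : (2 : ℝ) ^ r * (c / 4 / 2 ^ r * X) = c / 4 * X := by
    field_simp
  have hcX : 0 < c * (X : ℝ) := mul_pos hc hXpos
  linarith

end Pool.Agent.Lib.MP_fb5b0b_nt.WD
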