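import Pool.Agent.Lib.RU.AllV
import Pool.Agent.Lib.MP_fb5b0b_nt.WD.ExC

/-!
MP_fb5b0b_nt, directory WD (helper92): windows with exactly m primes. Module ExD: composition, plain form.
-/

set_option autoImplicit false

namespace Pool.Agent.Lib.MP_fb5b0b_nt.WD

open Finset
open Pool.Agent.Lib.RU

theorem weAll : WeStmt :=
  tWe Pool.Agent.Lib.MP_9f2731_nt.GP.Dhj.dhjAll Pool.Agent.Lib.RU.aCoU

private theorem ExD_card (a b : ℕ) (hab : a ≤ b) :
    Nat.primeCounting a + ({p : ℕ | p.Prime ∧ a < p ∧ p ≤ b} : Set ℕ).ncard = Nat.primeCounting b := by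
  have e : ({p : ℕ | p.Prime ∧ a < p ∧ p ≤ b} : Set ℕ) =
      (((Ioc a b).filter Nat.Prime : Finset ℕ) : Set ℕ) := by
    ext p
    rw [Set.mem_ofPred_eq, mem_coe, mem_filter, mem_Ioc]
    tauto
  rw [e, Set.ncard_coe_finset]
  have ha : Nat.primeCounting a = ((range (a + 1)).filter Nat.Prime).card := by
    rw [Nat.primeCounting, Nat.primeCounting', Nat.count_eq_card_filter_range]
  have hb : Nat.primeCounting b = ((range (b + 1)).filter Nat.Prime).card := by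
    rw [Nat.primeCounting, Nat.primeCounting', Nat.count_eq_card_filter_range]
  rw [ha, hb, ← card_union_of_disjoint]
  · congr 1
    ext p
    rw [mem_union, mem_filter, mem_filter, mem_filter, mem_range, mem_range, mem_Ioc]
    constructor
    · rintro (h | h)
      · exact ⟨by omega, h.2⟩
      · exact ⟨by omega, h.2⟩
    · intro h
      by_cases h2 : p < a + 1
      · exact Or.inl ⟨h2, h.2⟩
      · exact Or.inr ⟨by omega, h.2⟩
  · rw [disjoint_left]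
    intro p h1 h2
    rw [mem_filter, mem_range] at h1
    rw [mem_filter, mem_Ioc] at h2
    omega

theorem exD_win (m : ℕ) (C : ℝ) (a b : ℕ) (hab : a ≤ b) (h : WinE m C a b) :
    ({p : ℕ | p.Prime ∧ a < p ∧ p ≤ b} : Set ℕ).ncard = m ∧
    ∀ n : ℕ, a < Nat.nth Nat.Prime n → Nat.nth Nat.Prime (n + 2) ≤ b →
      C * ((Nat.nth Nat.Prime (n + 1) : ℝ) - Nat.nth Nat.Prime n) <
        (Nat.nth Nat.Prime (n + 2) : ℝ) - Nat.nth Nat.Prime (n + 1) := by
  have hinf : (Set.ofPred Nat.Prime).Infinite := Nat.infinite_setOfPred_prime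
  obtain ⟨h1, h2⟩ := h
  have h3 := ExD_card a b hab
  refine ⟨by omega, ?_⟩
  intro n hn1 hn2
  have h4 : Nat.primeCounting a ≤ n := by
    have h5 := (Nat.count_le_iff_le_nth hinf).2 (show a + 1 ≤ Nat.nth Nat.Prime n by omega)
    exact h5
  have h5 : n + 2 < Nat.primeCounting b := by
    by_contra hc
    push Not at hc
    have h6 : Nat.count Nat.Prime (b + 1) ≤ n + 2 := hc
    have h7 := (Nat.count_le_iff_le_nth hinf).1 h6
    omega
  obtain ⟨i, hi⟩ : ∃ i, n = Nat.primeCounting a + i := ⟨n - Nat.primeCounting a, by omega⟩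
  have h6 := h2 i (by omega)
  rw [← hi] at h6
  have hgp : ∀ n : ℕ, (gp n : ℝ) = (Nat.nth Nat.Prime (n + 1) : ℝ) - Nat.nth Nat.Prime n := by
    intro n
    unfold gp
    exact Nat.cast_sub ((Nat.nth_monotone hinf) (Nat.le_succ _))
  rw [hgp, hgp] at h6
  exact h6

/-- THEOREM WE, plain form -/
theorem wePlain (m : ℕ) (hm : 1 ≤ m) (C : ℝ) :
    ∃ ε₀ : ℝ, 0 < ε₀ ∧ ∀ (k : ℕ) (ε : ℝ), 1 ≤ k → 0 < ε → ε ≤ ε₀ →
      ∃ r : ℕ, ∀ f : Fin r → Fin k → ℕ, (∀ t j, 1 ≤ f t j) →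
        ∃ c : ℝ, 0 < c ∧ ∃ X₀ : ℕ, ∀ X : ℕ, X₀ ≤ X → ∃ T : Finset (Fin r), T.Nonempty ∧
          c * X ≤ (({y : ℕ | 1 ≤ y ∧ y ≤ X ∧ ∀ j : Fin k,
            ({p : ℕ | p.Prime ∧ (∏ t ∈ T, f t j) * y < p ∧
              (p : ℝ) ≤ (∏ t ∈ T, (f t j : ℝ)) * y + ε * Real.log y} : Set ℕ).ncard = m ∧
            ∀ n : ℕ, (∏ t ∈ T, f t j) * y < Nat.nth Nat.Prime n →
              (Nat.nth Nat.Prime (n + 2) : ℝ) ≤ (∏ t ∈ T, (f t j : ℝ)) * y + ε * Real.log y →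
              C * ((Nat.nth Nat.Prime (n + 1) : ℝ) - Nat.nth Nat.Prime n) <
                (Nat.nth Nat.Prime (n + 2) : ℝ) - Nat.nth Nat.Prime (n + 1)} : Set ℕ).ncard : ℝ) := by
  classical
  obtain ⟨ε0, hε0, h⟩ := weAll m C hm
  refine ⟨ε0, hε0, fun k ε hk hε hεε => ?_⟩
  obtain ⟨r, h⟩ := h k ε hk hε hεε
  refine ⟨r, fun f hf => ?_⟩
  obtain ⟨c, hc, X0, h⟩ := h f hf
  refine ⟨c, hc, X0, fun X hX => ?_⟩
  obtain ⟨T, hT, hX⟩ := h X hX
  refine ⟨T, hT, le_trans hX ?_⟩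
  have hle := Set.ncard_le_ncard (s := (((Finset.Icc 1 X).filter (fun y => ∀ j : Fin k,
      WinE m C ((∏ t ∈ T, f t j) * y) ((∏ t ∈ T, f t j) * y + ⌊ε * Real.log y⌋₊)) : Finset ℕ) : Set ℕ))
    (t := ({y : ℕ | 1 ≤ y ∧ y ≤ X ∧ ∀ j : Fin k,
            ({p : ℕ | p.Prime ∧ (∏ t ∈ T, f t j) * y < p ∧
              (p : ℝ) ≤ (∏ t ∈ T, (f t j : ℝ)) * y + ε * Real.log y} : Set ℕ).ncard = m ∧
            ∀ n : ℕ, (∏ t ∈ T, f t j) * y < Nat.nth Nat.Prime n →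
              (Nat.nth Nat.Prime (n + 2) : ℝ) ≤ (∏ t ∈ T, (f t j : ℝ)) * y + ε * Real.log y →
              C * ((Nat.nth Nat.Prime (n + 1) : ℝ) - Nat.nth Nat.Prime n) <
                (Nat.nth Nat.Prime (n + 2) : ℝ) - Nat.nth Nat.Prime (n + 1)} : Set ℕ))
    (fun y hy => by
      have hy' := Finset.mem_filter.1 (Finset.mem_coe.1 hy)
      have hyI := Finset.mem_Icc.1 hy'.1
      refine ⟨hyI.1, hyI.2, fun j => ?_⟩
      have hL : 0 ≤ ε * Real.log y := mul_nonneg hε.le (Real.log_natCast_nonneg y)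
      have hfl : ∀ p : ℕ, ((p : ℝ) ≤ (∏ t ∈ T, (f t j : ℝ)) * y + ε * Real.log y ↔
          p ≤ (∏ t ∈ T, f t j) * y + ⌊ε * Real.log y⌋₊) := by
        intro p
        have e1 : (∏ t ∈ T, (f t j : ℝ)) * y = (((∏ t ∈ T, f t j) * y : ℕ) : ℝ) := by
          push_cast
          ring
        rw [e1]
        have f1 : (⌊ε * Real.log y⌋₊ : ℝ) ≤ ε * Real.log y := Nat.floor_le hL
        have f2 : ε * Real.log y < (⌊ε * Real.log y⌋₊ : ℝ) + 1 := Nat.lt_floor_add_one _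
        constructor
        · intro h5
          have h6 : (p : ℝ) < (((∏ t ∈ T, f t j) * y : ℕ) : ℝ) + ⌊ε * Real.log y⌋₊ + 1 := by linarith
          have h7 : p < (∏ t ∈ T, f t j) * y + ⌊ε * Real.log y⌋₊ + 1 := by exact_mod_cast h6
          omega
        · intro h5
          have h6 : (p : ℝ) ≤ (((∏ t ∈ T, f t j) * y : ℕ) : ℝ) + ⌊ε * Real.log y⌋₊ := by
            exact_mod_cast h5
          linarith
      obtain ⟨h5, h6⟩ := exD_win m C _ _ (Nat.le_add_right _ _) (hy'.2 j)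
      refine ⟨?_, fun n h7 h8 => h6 n h7 ((hfl _).1 h8)⟩
      rw [← h5]
      congr 1
      ext p
      rw [Set.mem_ofPred_eq, Set.mem_ofPred_eq, hfl p])
    ((Set.finite_Icc 1 X).subset (fun y hy => ⟨hy.1, hy.2.1⟩))
  rw [Set.ncard_coe_finset] at hle
  exact_mod_cast hle

end Pool.Agent.Lib.MP_fb5b0b_nt.WD
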